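import Pool.Agent.Helper96.EQ.R
import Pool.Agent.Helper19.EQ.Ps
import Pool.Agent.Helper56.QD.L
import Pool.Agent.Helper85.EQ.R3b

/-!
# Project QD: the average with an integrable kernel, and the lower bound at the origin
-/

set_option autoImplicit false

namespace Pool.Agent.Helper19.QD

open MeasureTheory Set Filter Topology
open Pool.Agent.Helper95.EW (Ac Dl Nr)
open Pool.Agent.Helper71.MR (gt)
open Pool.Agent.Helper63.EQ (nu Zn Adm)
open Pool.Agent.Helper96.EQ (Tf ell_one gg_bd' cC2_nonneg)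
open Pool.Agent.Helper99.MS

variable {w : ℝ → ℝ} {Cw B : ℝ}

theorem Tf_C0 {g : ℝ → ℂ} {C : ℝ} (hC : ∀ v, ‖g v‖ ≤ C * ell v) : 0 ≤ C := by
  have h1 := (norm_nonneg _).trans (hC 0)
  by_contra hc
  push Not at hc
  have h2 := ell_pos 0
  have h3 := mul_neg_of_neg_of_pos hc h2
  linarith

theorem Tf_pt {f : ℝ → ℝ} (hs : ∀ y, 1 < |y| → f y = 0) {g : ℝ → ℂ} {C : ℝ}
    (hC : ∀ v, ‖g v‖ ≤ C * ell v) (v y : ℝ) : ‖(f y : ℂ) * g (v + y)‖ ≤ |f y| * (2 * C * ell v) := by
  have hC0 := Tf_C0 hC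
  rw [norm_mul, Complex.norm_real, Real.norm_eq_abs]
  by_cases hy : 1 < |y|
  · rw [hs y hy]
    simp
  · apply mul_le_mul_of_nonneg_left _ (abs_nonneg _)
    calc ‖g (v + y)‖ ≤ C * ell (v + y) := hC _
      _ ≤ C * (ell v * ell y) := mul_le_mul_of_nonneg_left (ell_add v y) hC0
      _ ≤ C * (ell v * 2) := by
          apply mul_le_mul_of_nonneg_left _ hC0
          exact mul_le_mul_of_nonneg_left (ell_one (not_lt.1 hy)) (ell_nonneg v)
      _ = _ := by ring

theorem Tf_meas {f : ℝ → ℝ} (hf : Integrable f) {g : ℝ → ℂ} (hg : Continuous g) (v : ℝ) :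
    AEStronglyMeasurable (fun y => (f y : ℂ) * g (v + y)) volume := by
  apply AEStronglyMeasurable.mul
  · exact Complex.continuous_ofReal.comp_aestronglyMeasurable hf.1
  · exact (hg.comp (by fun_prop)).aestronglyMeasurable

theorem Tf_int {f : ℝ → ℝ} (hf : Integrable f) (hs : ∀ y, 1 < |y| → f y = 0) {g : ℝ → ℂ} (hg : Continuous g) {C : ℝ}
    (hC : ∀ v, ‖g v‖ ≤ C * ell v) (v : ℝ) : Integrable (fun y => (f y : ℂ) * g (v + y)) :=
  Integrable.mono' (hf.abs.mul_const _) (Tf_meas hf hg v) (Filter.Eventually.of_forall (Tf_pt hs hC v))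

/-- A0: the average is continuous -/
theorem Tf_cont {f : ℝ → ℝ} (hf : Integrable f) (hs : ∀ y, 1 < |y| → f y = 0) {g : ℝ → ℂ} (hg : Continuous g) {C : ℝ}
    (hC : ∀ v, ‖g v‖ ≤ C * ell v) : Continuous (Tf f g) := by
  have hC0 := Tf_C0 hC
  rw [continuous_iff_continuousAt]
  intro v₀
  unfold Tf
  apply continuousAt_of_dominated (bound := fun y => |f y| * (2 * C * ell (|v₀| + 1)))
  · exact Filter.Eventually.of_forall (Tf_meas hf hg)
  · have : ∀ᶠ v in 𝓝 v₀, |v| < |v₀| + 1 := by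
      apply ContinuousAt.eventually_lt continuous_abs.continuousAt continuousAt_const
      simp
    filter_upwards [this] with v hv
    apply Filter.Eventually.of_forall
    intro y
    refine (Tf_pt hs hC v y).trans ?_
    apply mul_le_mul_of_nonneg_left _ (abs_nonneg _)
    apply mul_le_mul_of_nonneg_left _ (by positivity)
    apply ell_mono
    rw [abs_of_nonneg (by positivity : 0 ≤ |v₀| + 1)]
    exact hv.le
  · exact hf.abs.mul_const _
  · apply Filter.Eventually.of_forall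
    intro y
    exact continuousAt_const.mul (hg.comp (by fun_prop : Continuous (fun v : ℝ => v + y))).continuousAt

/-- A0: the size of the average -/
theorem Tf_bd {f : ℝ → ℝ} (hf : Integrable f) (hs : ∀ y, 1 < |y| → f y = 0) {g : ℝ → ℂ} (_hg : Continuous g) {C : ℝ}
    (_hC0 : 0 ≤ C) (hC : ∀ v, ‖g v‖ ≤ C * ell v) (v : ℝ) : ‖Tf f g v‖ ≤ (2 * C * ∫ y, |f y|) * ell v := by
  unfold Tf
  refine (norm_integral_le_of_norm_le (hf.abs.mul_const _) (Filter.Eventually.of_forall (Tf_pt hs hC v))).trans ?_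
  rw [integral_mul_const]
  exact le_of_eq (by ring)

/-- the shifted kernel is supported in `[-1, 1]` -/
theorem ps_sh_supp (h : Adm w Cw) {δ V₀ : ℝ} (hδ0 : 0 ≤ δ) (hδ : δ ≤ 1 / 16) (hV₀ : |V₀| ≤ 1 / 8) :
    ∀ y, 1 < |y| → ps w δ (y - V₀) = 0 := by
  intro y hy
  have hV := abs_le.1 hV₀
  apply ps_supp h hδ0
  rcases le_or_gt 0 y with h0 | h0
  · rw [abs_of_nonneg h0] at hy
    right
    linarith [hV.2]
  · rw [abs_of_neg h0] at hy
    left
    linarith [hV.1]

theorem gg_re96 (k : ℕ) (v : ℝ) :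
    (gg (4 * k) v).re = g1 ((4 * k : ℕ) : ℝ) v - (cv (ff mr) (be (4 * k)) (-v)).re := by
  unfold gg
  rw [cv_al, Complex.sub_re, Complex.ofReal_re]

/-- A0: the real part of the average of `gg` -/
theorem Tf_re (h : Adm w Cw) (hB : GB (ff mr) B) {k : ℕ} (hk : 2 ≤ k) {δ V₀ V : ℝ} (hδ0 : 0 < δ) (hδ : δ ≤ 1 / 16)
    (hV₀ : |V₀| ≤ 1 / 8) (hV : -(1 / 4) ≤ V) :
    |(Tf (fun y => ps w δ (y - V₀)) (gg (4 * k)) V).re - Dr w δ (g1 ((4 * k : ℕ) : ℝ)) (V + V₀)| ≤
      228 * B * CE / √((4 * k : ℕ) : ℝ) * ∫ y : ℝ, |ps w δ y| := by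
  have hB0 := hB.nonneg
  have hCE := CE_nonneg
  have hV1 := abs_le.1 hV₀
  obtain ⟨hpi, -⟩ := ps_int h hδ0 (by linarith : δ ≤ 1 / 4)
  have hpi' : Integrable (fun y => ps w δ (y - V₀)) := hpi.comp_sub_right V₀
  set q : ℝ := 228 * B * CE / √((4 * k : ℕ) : ℝ) with hq
  have hq0 : 0 ≤ q := by positivity
  have hgc := gg_cont hB (by omega : 1 ≤ k)
  have i1 := (Tf_int hpi' (ps_sh_supp h hδ0.le hδ hV₀) hgc (gg_bd' hB hk) V).re
  have hbc : Continuous fun v : ℝ => cv (ff mr) (be (4 * k)) (-v) :=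
    (cv_cont (ff_meas mr) hB (be_KD (by omega : 1 ≤ k))).comp continuous_neg
  have hbb : ∀ y, |ps w δ (y - V₀) * (cv (ff mr) (be (4 * k)) (-(V + y))).re| ≤ |ps w δ (y - V₀)| * q := by
    intro y
    rw [abs_mul]
    by_cases hy : y - V₀ ≤ -(1 / 2) ∨ δ ≤ y - V₀
    · rw [ps_supp h hδ0.le hy]
      simp
    · push Not at hy
      apply mul_le_mul_of_nonneg_left _ (abs_nonneg _)
      exact (Complex.abs_re_le_norm _).trans (g2_bd hB (by omega : 1 ≤ k) (by linarith [hy.1, hV1.1]))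
  have i2 : Integrable (fun y => ps w δ (y - V₀) * (cv (ff mr) (be (4 * k)) (-(V + y))).re) := by
    refine Integrable.mono' (hpi'.abs.mul_const q) ?_ (Filter.Eventually.of_forall hbb)
    apply AEStronglyMeasurable.mul hpi'.1
    exact (Complex.continuous_re.comp (hbc.comp (by fun_prop : Continuous fun y : ℝ => V + y))).aestronglyMeasurable
  have e1 : (Tf (fun y => ps w δ (y - V₀)) (gg (4 * k)) V).re =
      ∫ y, ps w δ (y - V₀) * (gg (4 * k) (V + y)).re := by
    unfold Tf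
    have h2 := integral_re (Tf_int hpi' (ps_sh_supp h hδ0.le hδ hV₀) hgc (gg_bd' hB hk) V)
    refine Eq.trans h2.symm ?_
    congr 1
    ext y
    exact Complex.re_ofReal_mul _ _
  have e2 : Dr w δ (g1 ((4 * k : ℕ) : ℝ)) (V + V₀) = ∫ y, ps w δ (y - V₀) * g1 ((4 * k : ℕ) : ℝ) (V + y) := by
    unfold Dr
    rw [← integral_sub_right_eq_self (fun y => ps w δ y * g1 ((4 * k : ℕ) : ℝ) (V + V₀ + y)) V₀]
    congr 1
    ext y
    rw [show V + V₀ + (y - V₀) = V + y by ring]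
  have i1' : Integrable (fun y => ps w δ (y - V₀) * (gg (4 * k) (V + y)).re) := by
    refine i1.congr (Filter.Eventually.of_forall fun y => ?_)
    exact Complex.re_ofReal_mul _ _
  have e3 : ∫ y, ps w δ (y - V₀) * g1 ((4 * k : ℕ) : ℝ) (V + y) =
      (∫ y, ps w δ (y - V₀) * (gg (4 * k) (V + y)).re) +
        ∫ y, ps w δ (y - V₀) * (cv (ff mr) (be (4 * k)) (-(V + y))).re := by
    rw [← integral_add i1' i2]
    congr 1
    ext y
    rw [gg_re96]
    ring
  rw [e1, e2, e3]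
  have h3 : |∫ y, ps w δ (y - V₀) * (cv (ff mr) (be (4 * k)) (-(V + y))).re| ≤ q * ∫ y : ℝ, |ps w δ y| := by
    rw [← Real.norm_eq_abs]
    refine (norm_integral_le_of_norm_le (hpi'.abs.mul_const q) (Filter.Eventually.of_forall hbb)).trans ?_
    rw [integral_mul_const, integral_sub_right_eq_self (fun y => |ps w δ y|) V₀]
    exact le_of_eq (by ring)
  rw [sub_add_cancel_left, abs_neg]
  exact h3

/-- the average of `g1` near the origin -/
theorem Dr_near96 (h : Adm w Cw) (hB : GB (ff mr) B) {m δ V : ℝ} (hm : 64 ≤ m) (hδ0 : 0 < δ) (hδ : δ ≤ 1 / 16)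
    (h1 : -(1 / 2) ≤ V) (h2 : V ≤ 1 / 8) :
    |Dr w δ (g1 m) V| ≤ (4 + 16 * B) * ∫ y : ℝ, |ps w δ y| := by
  have hB0 := hB.nonneg
  obtain ⟨hpi, -⟩ := ps_int h hδ0 (by linarith : δ ≤ 1 / 4)
  unfold Dr
  rw [← Real.norm_eq_abs, ← integral_const_mul]
  refine norm_integral_le_of_norm_le (hpi.abs.const_mul _) (Filter.Eventually.of_forall fun y => ?_)
  rw [Real.norm_eq_abs, abs_mul, mul_comm]
  by_cases hy : y ≤ -(1 / 2) ∨ δ ≤ y
  · rw [ps_supp h hδ0.le hy]
    simp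
  · push Not at hy
    apply mul_le_mul_of_nonneg_right _ (abs_nonneg _)
    have h3 := Pool.Agent.Helper56.QD.g1_near hB hm (v := V + y) (by linarith [hy.1]) (by linarith [hy.2])
    have h4 : Real.exp (-((V + y) / 2)) * EE m (V + y) ≤ 2 := by
      have h5 : Real.exp (-((V + y) / 2)) ≤ 2 := by
        have h6 : Real.exp (-((V + y) / 2)) ≤ Real.exp (1/2) := Real.exp_le_exp.2 (by linarith [hy.1])
        have h7 : Real.exp (1/2) ≤ 2 := by
          have h8 : Real.exp (1/2) ^ 2 = Real.exp 1 := by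
            rw [← Real.exp_nat_mul]; norm_num
          have he := Real.exp_one_lt_d9
          nlinarith [Real.exp_pos (1/2 : ℝ)]
        linarith
      calc Real.exp (-((V + y) / 2)) * EE m (V + y) ≤ 2 * 1 :=
            mul_le_mul h5 (EE_le_one (by linarith) _) (EE_pos _ _).le (by norm_num)
        _ = 2 := by norm_num
    have h5 : 0 ≤ Real.exp (-((V + y) / 2)) * EE m (V + y) := mul_nonneg (Real.exp_pos _).le (EE_pos _ _).le
    have h6 : Real.exp (-(m / 32)) ≤ 1 := Real.exp_le_one_iff.2 (by linarith)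
    have h7 : Real.exp (-((m - 4) / 32)) ≤ 1 := Real.exp_le_one_iff.2 (by linarith)
    have h8 : 16 * B * Real.exp (-((m - 4) / 32)) ≤ 16 * B := mul_le_of_le_one_right (by positivity) h7
    have h9 := abs_le.1 h3
    rw [abs_le]
    constructor
    · linarith [h9.1]
    · linarith [h9.2]

/-- A1: lower bound at the origin -/
theorem near_low (h : Adm w Cw) (hB : GB (ff mr) B) {k : ℕ} (hk : 250 ≤ k) {m δ L H : ℝ} (hm : m = ((4 * k : ℕ) : ℝ))
    (hδ : δ = 1 / √m) (hL : 1 ≤ L) (hH0 : 0 ≤ H) (hH : H ≤ 1 / 64 * nu w (6 / √m) * ∫ u : ℝ, gt δ u) :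
    2 * Real.pi * (H - (2 * Real.exp (-(m / 32)) + 16 * B * Real.exp (-((m - 4) / 32)) + 228 * B * CE / √m) * ∫ y : ℝ, |ps w δ y|) -
      (H + (4 + 16 * B + 228 * B * CE) * ∫ y : ℝ, |ps w δ y|) * (32 / (L * δ)) -
      (2 * cC2 B m * ∫ y : ℝ, |ps w δ y|) * (256 / L + 96 / L) ≤
    (∫ v : ℝ, Tf (fun y => ps w δ (y - -(3 * δ / 2))) (gg (4 * k)) (v + 0) * (KL L v : ℂ)).re := by
  have hB0 := hB.nonneg
  have hCE := CE_nonneg
  have hkR : (250 : ℝ) ≤ k := by exact_mod_cast hk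
  have hm1 : 1000 ≤ m := by rw [hm]; push_cast; linarith
  have hs : 31 ≤ √m := by
    rw [show (31 : ℝ) = √(31 ^ 2) by rw [Real.sqrt_sq (by norm_num)]]
    apply Real.sqrt_le_sqrt
    norm_num
    linarith
  have hs0 : 0 < √m := by linarith
  have hδ0 : 0 < δ := by rw [hδ]; positivity
  have hδ1 : δ ≤ 1 / 31 := by
    rw [hδ]
    exact one_div_le_one_div_of_le (by norm_num) hs
  have hδ16 : δ ≤ 1 / 16 := by linarith
  have hV₀ : |(-(3 * δ / 2))| ≤ 1 / 8 := by
    rw [abs_neg, abs_of_nonneg (by linarith)]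
    linarith
  obtain ⟨hpi, -⟩ := ps_int h hδ0 (by linarith : δ ≤ 1 / 4)
  have hpi' : Integrable (fun y => ps w δ (y - -(3 * δ / 2))) := hpi.comp_sub_right _
  have hsup := ps_sh_supp h hδ0.le hδ16 hV₀
  set Q : ℝ := ∫ y : ℝ, |ps w δ y| with hQ
  have hQ0 : 0 ≤ Q := integral_nonneg fun y => abs_nonneg _
  have hQ' : ∫ y, |ps w δ (y - -(3 * δ / 2))| = Q := integral_sub_right_eq_self (fun y => |ps w δ y|) _
  have hgc := gg_cont hB (by omega : 1 ≤ k)
  have hcc := cC2_nonneg hB0 (Nat.cast_nonneg (4 * k))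
  have hTc := Tf_cont hpi' hsup hgc (gg_bd' hB (by omega : 2 ≤ k))
  have hTb := Tf_bd hpi' hsup hgc hcc (gg_bd' hB (by omega : 2 ≤ k))
  rw [hQ', ← hm] at hTb
  rw [← hm] at hcc
  have hre : ∀ V, -(1 / 4) ≤ V → |(Tf (fun y => ps w δ (y - -(3 * δ / 2))) (gg (4 * k)) V).re -
      Dr w δ (g1 m) (V + -(3 * δ / 2))| ≤ 228 * B * CE / √m * Q := by
    intro V hV
    have h1 := Tf_re h hB (by omega : 2 ≤ k) hδ0 hδ16 hV₀ hV
    rw [← hm] at h1
    exact h1
  have hDl : ∀ V, -(2 * δ) ≤ V → V ≤ -δ →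
      H - (2 * Real.exp (-(m / 32)) + 16 * B * Real.exp (-((m - 4) / 32))) * Q ≤ Dr w δ (g1 m) V := by
    intro V h1 h2
    have h3 := Pool.Agent.Helper56.QD.Dr_low_core h hB hm1 (V := V)
      (by rw [show 2 / √m = 2 * (1 / √m) by ring, ← hδ]; exact h1) (by rw [← hδ]; exact h2)
      (fun y hy => by rw [← hδ] at hy ⊢; exact ps_supp h hδ0.le hy)
      (by rw [← hδ]; exact hpi)
      (fun f hf M hM => by rw [← hδ]; exact Dr_eq h hδ0.le (by linarith) hf hM)
    rw [← hδ] at h3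
    linarith
  have hqle : 228 * B * CE / √m ≤ 228 * B * CE := div_le_self (by positivity) (by linarith)
  have hE0 : 0 ≤ 228 * B * CE / √m := by positivity
  have e1 := Real.exp_pos (-(m / 32))
  have e2 := Real.exp_pos (-((m - 4) / 32))
  simp only [add_zero]
  have key := Pool.Agent.Helper63.EQ.low_gen2 hTc (C₂ := 2 * cC2 B m * Q) (by positivity) hTb (H := H)
    (E := (2 * Real.exp (-(m / 32)) + 16 * B * Real.exp (-((m - 4) / 32)) + 228 * B * CE / √m) * Q)
    (E' := (4 + 16 * B + 228 * B * CE) * Q) (θ := δ / 2) (θ₁ := 1 / 8) (L := L) hH0 (by positivity) (by positivity)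
    (by linarith) (by linarith) (by norm_num) hL
    (by
      intro v hv
      have hv1 := abs_le.1 hv
      have h1 := (abs_le.1 (hre v (by linarith [hv1.1]))).1
      have h2 := hDl (v + -(3 * δ / 2)) (by linarith [hv1.1]) (by linarith [hv1.2])
      linarith)
    (by
      intro v hv
      have hv1 := abs_le.1 hv
      have h1 := (abs_le.1 (hre v (by linarith [hv1.1]))).1
      have h2 := (abs_le.1 (Dr_near96 h hB (by linarith : 64 ≤ m) hδ0 hδ16 (V := v + -(3 * δ / 2))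
        (by linarith [hv1.1]) (by linarith [hv1.2]))).1
      have h3 := mul_le_mul_of_nonneg_right hqle hQ0
      linarith)
  have hL0 : 0 < L := by linarith
  have r1 : (16 : ℝ) / (L * (δ / 2)) = 32 / (L * δ) := by
    field_simp
    norm_num
  have r2 : (32 : ℝ) / (L * (1 / 8)) = 256 / L := by
    field_simp
    norm_num
  rw [r1, r2] at key
  exact key

end Pool.Agent.Helper19.QD
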