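import Pool.Agent.Helper19.EQ.Defs

/-!
# Good scales (block G of project QD)
-/

set_option autoImplicit false

namespace Pool.Agent.Helper19.QD

open MeasureTheory Set Filter Topology
open Pool.Agent.Helper63.EQ (Adm)
open Pool.Agent.Helper95.EW (w_bd w_int)

variable {w : ℝ → ℝ} {Cw : ℝ}

theorem Wd_ii (h : Adm w Cw) : IntervalIntegrable (fun s : ℝ => w (1 - s)) volume 0 1 := by
  have h1 : IntervalIntegrable w volume 0 1 :=
    (intervalIntegrable_iff_integrableOn_Ico_of_le zero_le_one).2 (w_int h.h0 h.hw h.hC)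
  have h2 := (h1.comp_sub_left 1).symm
  simpa using h2

theorem Wd_ii' (h : Adm w Cw) {a b : ℝ} (ha : 0 ≤ a) (hab : a ≤ b) (hb : b ≤ 1) :
    IntervalIntegrable (fun s : ℝ => w (1 - s)) volume a b := by
  apply (Wd_ii h).mono_set
  rw [uIcc_of_le hab, uIcc_of_le zero_le_one]
  exact Icc_subset_Icc ha hb

theorem w1_nonneg (h : Adm w Cw) {s : ℝ} (hs : 0 < s) (hs1 : s ≤ 1) : 0 ≤ w (1 - s) :=
  h.h0 _ ⟨by linarith, by linarith⟩

theorem Wd_split (h : Adm w Cw) {a b : ℝ} (ha : 0 ≤ a) (hab : a ≤ b) (hb : b ≤ 1) :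
    Wd w b = Wd w a + ∫ s in a..b, w (1 - s) := by
  unfold Wd
  rw [intervalIntegral.integral_add_adjacent_intervals (Wd_ii' h le_rfl ha (hab.trans hb))
    (Wd_ii' h ha hab hb)]

theorem Wd_piece_nonneg (h : Adm w Cw) {a b : ℝ} (ha : 0 ≤ a) (hab : a ≤ b) (hb : b ≤ 1) :
    0 ≤ ∫ s in a..b, w (1 - s) := by
  rw [intervalIntegral.integral_of_le hab]
  apply setIntegral_nonneg measurableSet_Ioc
  intro s hs
  exact w1_nonneg h (lt_of_le_of_lt ha hs.1) (hs.2.trans hb)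

theorem Wd_mono (h : Adm w Cw) {a b : ℝ} (ha : 0 ≤ a) (hab : a ≤ b) (hb : b ≤ 1) :
    Wd w a ≤ Wd w b := by
  rw [Wd_split h ha hab hb]
  linarith [Wd_piece_nonneg h ha hab hb]

theorem Wd_piece_le (h : Adm w Cw) {a b : ℝ} (ha : 0 < a) (hab : a ≤ b) (hb : b ≤ 1) :
    ∫ s in a..b, w (1 - s) ≤ (b - a) * w (1 - a) := by
  have h1 : ∫ s in a..b, w (1 - s) ≤ ∫ _ in a..b, w (1 - a) := by
    apply intervalIntegral.integral_mono_on hab (Wd_ii' h ha.le hab hb) (by simp)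
    intro s hs
    exact h.hw ⟨by linarith [hs.2], by linarith [hs.1]⟩ ⟨by linarith, by linarith⟩ (by linarith [hs.1])
  simpa using h1

theorem Wd_le_sqrt (h : Adm w Cw) {δ : ℝ} (hδ : 0 < δ) (hδ1 : δ ≤ 1) :
    Wd w δ ≤ 4 * Cw * √δ := by
  have h1 : Wd w δ ≤ ∫ s in (0:ℝ)..δ, (2 * Cw) * s ^ (-(1:ℝ) / 2) := by
    unfold Wd
    apply intervalIntegral.integral_mono_on_of_le_Ioo hδ.le (Wd_ii' h le_rfl hδ.le hδ1)
    · exact (intervalIntegral.intervalIntegrable_rpow' (by norm_num)).const_mul _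
    · intro s hs
      have h2 := w_bd h.h0 h.hw h.hC (t := 1 - s) ⟨by linarith [hs.2], by linarith [hs.1]⟩
      refine h2.trans_eq ?_
      rw [sub_sub_cancel, neg_div, Real.rpow_neg hs.1.le, ← Real.sqrt_eq_rpow]
      rfl
  refine h1.trans_eq ?_
  rw [intervalIntegral.integral_const_mul, integral_rpow (by left; norm_num)]
  rw [show (-(1:ℝ) / 2 + 1) = 1 / 2 by norm_num, Real.zero_rpow (by norm_num),
    ← Real.sqrt_eq_rpow]
  ring

theorem Wd_pos (h : Adm w Cw) {δ : ℝ} (hδ : 0 < δ) (hδ1 : δ ≤ 1) : 0 < Wd w δ := by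
  obtain ⟨t, ht, hwt⟩ := h.hub 0
  set b := min δ (1 - t) with hb
  have hb0 : 0 < b := lt_min hδ (by linarith [ht.2])
  have hb1 : b ≤ 1 := (min_le_left _ _).trans hδ1
  have h1 : b * w t ≤ Wd w b := by
    have h2 : ∫ _ in (0:ℝ)..b, w t ≤ ∫ s in (0:ℝ)..b, w (1 - s) := by
      apply intervalIntegral.integral_mono_on_of_le_Ioo hb0.le (by simp) (Wd_ii' h le_rfl hb0.le hb1)
      intro s hs
      have h3 : b ≤ 1 - t := min_le_right _ _
      exact h.hw ht ⟨by linarith [hs.2], by linarith [hs.1]⟩ (by linarith [hs.2])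
    simpa [Wd] using h2
  have h4 := Wd_mono h hb0.le (min_le_left δ (1 - t)) hδ1
  have h5 : 0 < b * w t := mul_pos hb0 hwt
  linarith

/-- Block G: good scales. -/
theorem good (h : Adm w Cw) {C₁ : ℝ} (hC₁ : 1 ≤ C₁) : ∃ A : ℝ, 1 ≤ A ∧ ∀ j₀ : ℕ, ∃ j : ℕ, j₀ ≤ j ∧
    Wd w ((1 / 2) ^ j) ≤ A * (1 / 2) ^ j * w (1 - C₁ * (1 / 2) ^ j) := by
  obtain ⟨q, hq⟩ := pow_unbounded_of_one_lt C₁ (one_lt_two)
  have hq1 : (1:ℝ) ≤ 2 ^ q := one_le_pow₀ (by norm_num)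
  refine ⟨4 * 2 ^ q, by linarith, fun j₀ => ?_⟩
  by_contra hcon
  push Not at hcon
  have hp : ∀ j : ℕ, (0:ℝ) < (1 / 2) ^ j := fun j => by positivity
  have hp1 : ∀ j : ℕ, ((1:ℝ) / 2) ^ j ≤ 1 := fun j => pow_le_one₀ (by norm_num) (by norm_num)
  -- one step
  have step : ∀ i : ℕ, j₀ ≤ i → Wd w ((1 / 2) ^ i) ≤ 5 / 4 * Wd w ((1 / 2) ^ (i + 1)) := by
    intro i hi
    have h1 := hcon (i + 1 + q) (by omega)
    have e1 : ((1:ℝ) / 2) ^ (i + 1 + q) = (1 / 2) ^ (i + 1) * (1 / 2) ^ q := pow_add _ _ _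
    have e2 : ((1:ℝ) / 2) ^ q * 2 ^ q = 1 := by
      rw [← mul_pow]
      norm_num
    have e3 : C₁ * ((1:ℝ) / 2) ^ (i + 1 + q) ≤ (1 / 2) ^ (i + 1) := by
      rw [e1]
      calc C₁ * ((1 / 2) ^ (i + 1) * (1 / 2) ^ q) ≤ 2 ^ q * ((1 / 2) ^ (i + 1) * (1 / 2) ^ q) := by
            apply mul_le_mul_of_nonneg_right hq.le
            positivity
        _ = (1 / 2) ^ (i + 1) * ((1 / 2) ^ q * 2 ^ q) := by ring
        _ = _ := by rw [e2, mul_one]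
    have e4 : 0 < C₁ * ((1:ℝ) / 2) ^ (i + 1 + q) := by
      have := hp (i + 1 + q)
      positivity
    have h2 : w (1 - (1 / 2) ^ (i + 1)) ≤ w (1 - C₁ * (1 / 2) ^ (i + 1 + q)) := by
      apply h.hw
      · exact ⟨by linarith [hp1 (i + 1)], by linarith [hp (i + 1)]⟩
      · exact ⟨by linarith [hp1 (i + 1)], by linarith⟩
      · linarith
    have e5 : ((1:ℝ) / 2) ^ i = 2 * (1 / 2) ^ (i + 1) := by
      rw [pow_succ]
      ring
    have h3 : ((1:ℝ) / 2) ^ (i + 1) ≤ (1 / 2) ^ i := by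
      rw [e5]
      linarith [hp (i + 1)]
    have h4 := Wd_split h (hp (i + 1)).le h3 (hp1 i)
    have h5 := Wd_piece_le h (hp (i + 1)) h3 (hp1 i)
    have h6 : ((1:ℝ) / 2) ^ i - (1 / 2) ^ (i + 1) = (1 / 2) ^ (i + 1) := by
      rw [e5]
      ring
    rw [h6] at h5
    have h7 : Wd w ((1 / 2) ^ (i + 1 + q)) ≤ Wd w ((1 / 2) ^ (i + 1)) := by
      apply Wd_mono h (hp _).le _ (hp1 _)
      rw [e1]
      exact mul_le_of_le_one_right (hp _).le (hp1 q)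
    -- 4 * 2^q * (1/2)^(i+1+q) * W = 4 * (1/2)^(i+1) * W
    have h8 : 4 * 2 ^ q * ((1:ℝ) / 2) ^ (i + 1 + q) * w (1 - C₁ * (1 / 2) ^ (i + 1 + q)) =
        4 * ((1 / 2) ^ (i + 1) * w (1 - C₁ * (1 / 2) ^ (i + 1 + q))) := by
      rw [e1]
      calc _ = 4 * ((1 / 2) ^ (i + 1) * w (1 - C₁ * ((1 / 2) ^ (i + 1) * (1 / 2) ^ q))) *
            ((1 / 2) ^ q * 2 ^ q) := by ring
        _ = _ := by rw [e2, mul_one]
    rw [h8] at h1
    have h9 : ((1:ℝ) / 2) ^ (i + 1) * w (1 - (1 / 2) ^ (i + 1)) ≤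
        (1 / 2) ^ (i + 1) * w (1 - C₁ * (1 / 2) ^ (i + 1 + q)) :=
      mul_le_mul_of_nonneg_left h2 (hp _).le
    linarith
  -- iteration
  have iter : ∀ n : ℕ, Wd w ((1 / 2) ^ j₀) ≤ (5 / 4) ^ n * Wd w ((1 / 2) ^ (j₀ + n)) := by
    intro n
    induction n with
    | zero => simp
    | succ n ih =>
      refine ih.trans ?_
      have := step (j₀ + n) (by omega)
      calc (5 / 4 : ℝ) ^ n * Wd w ((1 / 2) ^ (j₀ + n))
          ≤ (5 / 4) ^ n * (5 / 4 * Wd w ((1 / 2) ^ (j₀ + n + 1))) :=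
            mul_le_mul_of_nonneg_left this (by positivity)
        _ = _ := by
            rw [pow_succ, ← add_assoc]
            ring_nf
  have hpos := Wd_pos h (hp j₀) (hp1 j₀)
  have hsq : ∀ n : ℕ, Wd w ((1 / 2) ^ j₀) ^ 2 ≤ (16 * Cw ^ 2) * (25 / 32) ^ n := by
    intro n
    have h1 := iter n
    have h2 := Wd_le_sqrt h (hp (j₀ + n)) (hp1 (j₀ + n))
    have h3 : Wd w ((1 / 2) ^ j₀) ≤ (5 / 4) ^ n * (4 * Cw * √((1 / 2) ^ (j₀ + n))) :=
      h1.trans (mul_le_mul_of_nonneg_left h2 (by positivity))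
    have h4 := pow_le_pow_left₀ hpos.le h3 2
    refine h4.trans ?_
    have h5 : √((1 / 2 : ℝ) ^ (j₀ + n)) ^ 2 = (1 / 2) ^ (j₀ + n) := Real.sq_sqrt (hp _).le
    calc ((5 / 4 : ℝ) ^ n * (4 * Cw * √((1 / 2) ^ (j₀ + n)))) ^ 2
        = (16 * Cw ^ 2) * (((5 / 4) ^ n) ^ 2 * √((1 / 2) ^ (j₀ + n)) ^ 2) := by ring
      _ = (16 * Cw ^ 2) * (((5 / 4) ^ n) ^ 2 * ((1 / 2) ^ j₀ * (1 / 2) ^ n)) := by
          rw [h5, pow_add]
      _ ≤ (16 * Cw ^ 2) * (((5 / 4) ^ n) ^ 2 * (1 * (1 / 2) ^ n)) := by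
          gcongr
          exact hp1 j₀
      _ = (16 * Cw ^ 2) * (25 / 32) ^ n := by
          rw [one_mul, ← pow_mul, mul_comm n 2, pow_mul, ← mul_pow]
          norm_num
  have hlim : Tendsto (fun n : ℕ => (16 * Cw ^ 2) * (25 / 32 : ℝ) ^ n) atTop (𝓝 ((16 * Cw ^ 2) * 0)) :=
    (tendsto_pow_atTop_nhds_zero_of_lt_one (by norm_num) (by norm_num)).const_mul _
  rw [mul_zero] at hlim
  have := ge_of_tendsto' hlim hsq
  have h6 : 0 < Wd w ((1 / 2) ^ j₀) ^ 2 := by positivity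
  linarith

end Pool.Agent.Helper19.QD
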