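import Pool.Agent.Helper99.MS.Contra

/-!
# Averages of the smoothed function: spectrum, size, recurrence
-/

set_option autoImplicit false

namespace Pool.Agent.Helper96.EQ

open Finset MeasureTheory Set Filter Topology
open Pool.Agent.Helper99.MS

/-- the average of a complex function -/
noncomputable def Tf (f : ℝ → ℝ) (g : ℝ → ℂ) (V : ℝ) : ℂ := ∫ y : ℝ, (f y : ℂ) * g (V + y)

theorem ell_one {y : ℝ} (hy : |y| ≤ 1) : ell y ≤ 2 := by
  have := ell_le_linear y
  linarith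

section swap

variable {f : ℝ → ℝ} {g : ℝ → ℂ} {C L : ℝ}

theorem bound_pt (hs : ∀ y, 1 < |y| → f y = 0) (hC : ∀ v, ‖g v‖ ≤ C * ell v) (hC0 : 0 ≤ C)
    (hL : 0 < L) (u v y : ℝ) :
    ‖(f y : ℂ) * g (v + u + y) * (KL L v : ℂ)‖ ≤
      |f y| * ((2 * C * ell u) * (ell v * KL L v)) := by
  have hK := KL_nonneg hL v
  have hu := ell_nonneg u
  have hv := ell_nonneg v
  rw [norm_mul, norm_mul, Complex.norm_real, Complex.norm_real, Real.norm_eq_abs,
    Real.norm_of_nonneg hK]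
  by_cases hy : 1 < |y|
  · rw [hs y hy]
    simp
  · have hy1 := ell_one (not_lt.1 hy)
    have h1 : ell (v + u + y) ≤ ell v * ell u * 2 := by
      refine (ell_add (v + u) y).trans ?_
      apply mul_le_mul (ell_add v u) hy1 (ell_nonneg y) (by positivity)
    calc |f y| * ‖g (v + u + y)‖ * KL L v ≤ |f y| * (C * (ell v * ell u * 2)) * KL L v := by
          apply mul_le_mul_of_nonneg_right _ hK
          apply mul_le_mul_of_nonneg_left _ (abs_nonneg _)
          exact (hC _).trans (mul_le_mul_of_nonneg_left h1 hC0)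
      _ = _ := by ring

theorem prod_int (hf : Integrable f) (hs : ∀ y, 1 < |y| → f y = 0) (hg : Continuous g)
    (hC : ∀ v, ‖g v‖ ≤ C * ell v) (hC0 : 0 ≤ C) (hL : 0 < L) (u : ℝ) :
    Integrable (fun p : ℝ × ℝ => (f p.2 : ℂ) * g (p.1 + u + p.2) * (KL L p.1 : ℂ))
      (volume.prod volume) := by
  have h1 : Integrable (fun p : ℝ × ℝ => (2 * C * ell u) * (ell p.1 * KL L p.1) * |f p.2|)
      (volume.prod volume) :=
    ((ell_KL_int hL).const_mul (2 * C * ell u)).mul_prod hf.abs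
  refine Integrable.mono' h1 ?_ ?_
  · apply AEStronglyMeasurable.mul
    · apply AEStronglyMeasurable.mul
      · exact (Complex.continuous_ofReal.comp_aestronglyMeasurable hf.1).comp_snd
      · exact (hg.comp (by fun_prop)).aestronglyMeasurable
    · exact (Complex.continuous_ofReal.comp_aestronglyMeasurable (KL_meas (L := L))).comp_fst
  · apply Filter.Eventually.of_forall
    rintro ⟨v, y⟩
    have := bound_pt hs hC hC0 hL u v y
    simp only
    linarith

/-- Fubini for the Fejer smoothing of an average. -/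
theorem Tf_swap (hf : Integrable f) (hs : ∀ y, 1 < |y| → f y = 0) (hg : Continuous g)
    (hC : ∀ v, ‖g v‖ ≤ C * ell v) (hC0 : 0 ≤ C) (hL : 0 < L) (u : ℝ) :
    ∫ v, Tf f g (v + u) * (KL L v : ℂ) = ∫ y, (f y : ℂ) * ∫ v, g (v + (u + y)) * (KL L v : ℂ) := by
  have h1 : ∀ v, Tf f g (v + u) * (KL L v : ℂ) =
      ∫ y, (f y : ℂ) * g (v + u + y) * (KL L v : ℂ) := by
    intro v
    unfold Tf
    rw [integral_mul_const]
  simp_rw [h1]
  rw [integral_integral_swap (prod_int hf hs hg hC hC0 hL u)]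
  apply integral_congr_ae
  apply Filter.Eventually.of_forall
  intro y
  simp only
  rw [← integral_const_mul]
  apply integral_congr_ae
  apply Filter.Eventually.of_forall
  intro v
  simp only
  rw [add_assoc, mul_assoc]

theorem exp_int (hf : Integrable f) (γ : ℝ) :
    Integrable (fun y => (f y : ℂ) * Complex.exp (γ * y * Complex.I)) := by
  refine Integrable.mono' hf.abs ?_ ?_
  · apply AEStronglyMeasurable.mul
    · exact Complex.continuous_ofReal.comp_aestronglyMeasurable hf.1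
    · exact Continuous.aestronglyMeasurable (by fun_prop)
  · apply Filter.Eventually.of_forall
    intro y
    rw [norm_mul, Complex.norm_real, Real.norm_eq_abs, show (γ : ℂ) * y * Complex.I =
      ((γ * y : ℝ) : ℂ) * Complex.I by push_cast; ring, Complex.norm_exp_ofReal_mul_I, mul_one]

/-- Size of the Fejer smoothing of an average. -/
theorem sup_Tf (hf : Integrable f) (hs : ∀ y, 1 < |y| → f y = 0) (hg : Continuous g)
    (hC : ∀ v, ‖g v‖ ≤ C * ell v) (hC0 : 0 ≤ C) (hL : 0 < L) (u : ℝ) :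
    ‖∫ v, Tf f g (v + u) * (KL L v : ℂ)‖ ≤
      2 * (∫ y, |f y|) * (C * ell u * ∫ v, ell v * KL L v) := by
  rw [Tf_swap hf hs hg hC hC0 hL u]
  have hI : 0 ≤ ∫ v, ell v * KL L v :=
    integral_nonneg fun v => mul_nonneg (ell_nonneg v) (KL_nonneg hL v)
  have hu := ell_nonneg u
  calc ‖∫ y, (f y : ℂ) * ∫ v, g (v + (u + y)) * (KL L v : ℂ)‖
      ≤ ∫ y, |f y| * (2 * (C * ell u * ∫ v, ell v * KL L v)) := by
        apply norm_integral_le_of_norm_le (hf.abs.mul_const _)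
        apply Filter.Eventually.of_forall
        intro y
        rw [norm_mul, Complex.norm_real, Real.norm_eq_abs]
        by_cases hy : 1 < |y|
        · rw [hs y hy]
          simp
        · apply mul_le_mul_of_nonneg_left _ (abs_nonneg _)
          refine (sup_P hC hC0 hL (u + y)).trans ?_
          have h1 : ell (u + y) ≤ ell u * 2 :=
            (ell_add u y).trans (mul_le_mul_of_nonneg_left (ell_one (not_lt.1 hy)) hu)
          calc C * ell (u + y) * ∫ v, ell v * KL L v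
              ≤ C * (ell u * 2) * ∫ v, ell v * KL L v := by gcongr
            _ = _ := by ring
    _ = _ := by
        rw [integral_mul_const]
        ring

end swap

section spectrum

variable {f : ℝ → ℝ} {B : ℝ} {k : ℕ}

theorem gg_bd' (h : GB (ff mr) B) (hk : 2 ≤ k) (v : ℝ) :
    ‖gg (4 * k) v‖ ≤ cC2 B ((4 * k : ℕ) : ℝ) * ell v := gg_bd h hk v

theorem cC2_nonneg {B m : ℝ} (hB : 0 ≤ B) (hm : 0 ≤ m) : 0 ≤ cC2 B m := by
  have hCI := CI_nonneg
  unfold cC2
  positivity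

/-- R1: the spectrum of the average. -/
theorem R1 (h : GB (ff mr) B) (hk : 2 ≤ k) {L : ℝ} (hL : 0 < L) (hf : Integrable f)
    (hs : ∀ y, 1 < |y| → f y = 0) :
    ∃ b : ℝ → ℂ, ∀ u, ∫ v, Tf f (gg (4 * k)) (v + u) * (KL L v : ℂ) =
      ∑ γ ∈ ZL L, b γ * Complex.exp (γ * u * Complex.I) := by
  have hB := h.nonneg
  obtain ⟨b, hb⟩ := gg_repr h hk hL
  refine ⟨fun γ => b γ * ∫ y, (f y : ℂ) * Complex.exp (γ * y * Complex.I), fun u => ?_⟩
  rw [Tf_swap hf hs (gg_cont h (by omega)) (gg_bd' h hk)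
    (cC2_nonneg hB (Nat.cast_nonneg _)) hL u]
  have h1 : ∀ y : ℝ, (f y : ℂ) * ∫ v, gg (4 * k) (v + (u + y)) * (KL L v : ℂ) =
      ∑ γ ∈ ZL L, (b γ * Complex.exp (γ * u * Complex.I)) *
        ((f y : ℂ) * Complex.exp (γ * y * Complex.I)) := by
    intro y
    rw [hb, Finset.mul_sum]
    apply Finset.sum_congr rfl
    intro γ _
    have e : (γ : ℂ) * ((u + y : ℝ) : ℂ) * Complex.I = γ * u * Complex.I + γ * y * Complex.I := by
      push_cast
      ring
    rw [e, Complex.exp_add]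
    ring
  simp_rw [h1]
  rw [integral_finsetSum _ fun γ _ => (exp_int hf γ).const_mul _]
  apply Finset.sum_congr rfl
  intro γ _
  rw [integral_const_mul]
  ring

/-- R2: the size of the average. -/
theorem R2 (h : GB (ff mr) B) (hk : 2 ≤ k) {L : ℝ} (hL : 1 ≤ L) (hf : Integrable f)
    (hs : ∀ y, 1 < |y| → f y = 0) {Y : ℝ} (hY : 0 ≤ Y) {u : ℝ} (hu : |u| ≤ 2 * Real.exp Y) :
    ‖∫ v, Tf f (gg (4 * k)) (v + u) * (KL L v : ℂ)‖ ≤
      2 * (∫ y, |f y|) * (cC2 B ((4 * k : ℕ) : ℝ) * (Y + 3) * (16 * L * CS)) := by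
  have hL0 : 0 < L := by linarith
  have hB := h.nonneg
  have hc := cC2_nonneg hB (Nat.cast_nonneg (4 * k))
  refine (sup_Tf hf hs (gg_cont h (by omega)) (gg_bd' h hk) hc hL0 u).trans ?_
  have hf0 : 0 ≤ ∫ y, |f y| := integral_nonneg fun y => abs_nonneg _
  have h1 := ell_le_Y hY hu
  have h2 := ell_KL_tot hL
  have hI : 0 ≤ ∫ v, ell v * KL L v :=
    integral_nonneg fun v => mul_nonneg (ell_nonneg v) (KL_nonneg hL0 v)
  apply mul_le_mul_of_nonneg_left _ (by positivity)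
  apply mul_le_mul (mul_le_mul_of_nonneg_left h1 hc) h2 hI (by positivity)

end spectrum

/-- Recurrence, at all points of an interval: an exponential polynomial with few frequencies that
is bounded by `S` on `[-2R,2R]` returns close to itself. -/
theorem pigeon' (Γ : Finset ℝ) (b : ℝ → ℂ) (P : ℝ → ℂ)
    (hPdef : ∀ v, P v = ∑ γ ∈ Γ, b γ * Complex.exp (γ * v * Complex.I))
    {R S ε τ₀ T : ℝ} (J : ℕ) (hS : 0 ≤ S) (hε : 0 < ε) (hτ : 0 ≤ τ₀) (hT : 0 ≤ T)
    (hJ : J * τ₀ + T ≤ R) (hP : ∀ v, |v| ≤ 2 * R → ‖P v‖ ≤ S)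
    (hc : (1 + 2 * S / ε) ^ (2 * Γ.card) < J + 1) :
    ∃ k : ℕ, 1 ≤ k ∧ k ≤ J ∧ ∀ t, |t| ≤ T → ‖P (k * τ₀ + t) - P t‖ < ε := by
  classical
  have hR : 0 ≤ R := le_trans (by positivity) hJ
  let X := Set.Icc (-R) R
  let e : ℝ → C(X, ℂ) := fun γ => ⟨fun v => Complex.exp (γ * (v : ℝ) * Complex.I), by fun_prop⟩
  let V : Submodule ℂ C(X, ℂ) := Submodule.span ℂ (↑(Γ.image e) : Set C(X, ℂ))
  have hfd : FiniteDimensional ℂ V := FiniteDimensional.span_finset ℂ _
  have hfr : Module.finrank ℂ V ≤ Γ.card := by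
    refine (finrank_span_finset_le_card (R := ℂ) (Γ.image e)).trans ?_
    exact Finset.card_image_le
  have : FiniteDimensional ℝ V := FiniteDimensional.complexToReal V
  have hfr2 : Module.finrank ℝ V ≤ 2 * Γ.card := by
    have hfree : Module.Free ℂ V := Module.Free.of_divisionRing ℂ V
    have h2 := Module.finrank_mul_finrank ℝ ℂ V
    rw [Complex.finrank_real_complex] at h2
    omega
  let _ : MeasurableSpace V := borel V
  have : BorelSpace V := ⟨rfl⟩
  let q : ℕ → C(X, ℂ) := fun j => ∑ γ ∈ Γ, (b γ * Complex.exp (γ * ((j * τ₀ : ℝ) : ℂ) * Complex.I)) • e γ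
  have hqmem : ∀ j, q j ∈ V := by
    intro j
    apply Submodule.sum_mem
    intro γ hγ
    apply Submodule.smul_mem
    apply Submodule.subset_span
    exact Finset.mem_coe.2 (Finset.mem_image_of_mem e hγ)
  have hqval : ∀ (j : ℕ) (v : X), q j v = P ((v : ℝ) + j * τ₀) := by
    intro j v
    rw [hPdef]
    simp only [q, ContinuousMap.coe_sum, Finset.sum_apply, ContinuousMap.coe_smul, Pi.smul_apply,
      smul_eq_mul]
    apply Finset.sum_congr rfl
    intro γ _
    simp only [e, ContinuousMap.coe_mk]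
    rw [mul_assoc, ← Complex.exp_add]
    congr 2
    push_cast
    ring
  have hjR : ∀ j ≤ J, (j : ℝ) * τ₀ + T ≤ R := by
    intro j hj
    refine le_trans ?_ hJ
    gcongr
  have hqn : ∀ j ≤ J, ‖(⟨q j, hqmem j⟩ : V)‖ ≤ S := by
    intro j hj
    rw [Submodule.coe_norm]
    simp only
    rw [ContinuousMap.norm_le _ hS]
    intro v
    rw [hqval]
    apply hP
    have h1 := v.2.1
    have h2 := v.2.2
    have h3 := hjR j hj
    have h4 : 0 ≤ (j : ℝ) * τ₀ := by positivity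
    rw [abs_le]
    constructor <;> linarith
  obtain ⟨i, j, hij, hjJ, hlt⟩ := vol_pigeon (V := V) J (fun j => ⟨q j, hqmem j⟩) hS hε hqn (by
    refine lt_of_le_of_lt ?_ hc
    apply pow_le_pow_right₀ _ hfr2
    have : 0 ≤ 2 * S / ε := by positivity
    linarith)
  have hlt' : ‖q i - q j‖ < ε := by
    have : ‖((⟨q i, hqmem i⟩ : V) - ⟨q j, hqmem j⟩ : V)‖ = ‖q i - q j‖ := by
      rw [Submodule.coe_norm]
      rfl
    rw [← this]
    exact hlt
  refine ⟨j - i, by omega, by omega, fun t ht => ?_⟩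
  have ht' := abs_le.1 ht
  have hi0 : -((i : ℝ) * τ₀) + t ∈ X := by
    have h3 := hjR i (by omega)
    have h4 : 0 ≤ (i : ℝ) * τ₀ := by positivity
    exact ⟨by linarith, by linarith⟩
  have h5 := ContinuousMap.norm_coe_le_norm (q i - q j) ⟨_, hi0⟩
  rw [ContinuousMap.sub_apply, hqval, hqval] at h5
  simp only at h5
  have h6 : -((i : ℝ) * τ₀) + t + i * τ₀ = t := by ring
  have h7 : -((i : ℝ) * τ₀) + t + j * τ₀ = ((j - i : ℕ) : ℝ) * τ₀ + t := by
    rw [Nat.cast_sub hij.le]; ring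
  rw [h6, h7] at h5
  rw [norm_sub_rev]
  exact lt_of_le_of_lt h5 hlt'

/-- R3: recurrence of the average. -/
theorem R3 {f : ℝ → ℝ} {B : ℝ} {k : ℕ} (h : GB (ff mr) B) (hk : 2 ≤ k) {L : ℝ} (hL : 1 ≤ L)
    (hf : Integrable f) (hs : ∀ y, 1 < |y| → f y = 0) {Y τ ε F : ℝ} (hY : 0 ≤ Y) {J : ℕ}
    (hτ : 0 ≤ τ) (hJτ : J * τ + 1 ≤ Real.exp Y) (hε : 0 < ε) (hF : ∫ y, |f y| ≤ F)
    (hc : (1 + 2 * (2 * F * (cC2 B ((4 * k : ℕ) : ℝ) * (Y + 3) * (16 * L * CS))) / ε) ^
      (2 * (ZL L).card) < J + 1) :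
    ∃ n : ℕ, 1 ≤ n ∧ n ≤ J ∧ ∀ t, |t| ≤ 1 →
      ‖(∫ v, Tf f (gg (4 * k)) (v + (n * τ + t)) * (KL L v : ℂ)) -
        ∫ v, Tf f (gg (4 * k)) (v + t) * (KL L v : ℂ)‖ < ε := by
  have hL0 : 0 < L := by linarith
  have hB := h.nonneg
  have hCS := CS_nonneg
  have hcc := cC2_nonneg hB (Nat.cast_nonneg (4 * k))
  have hF0 : 0 ≤ F := (integral_nonneg fun y => abs_nonneg _).trans hF
  obtain ⟨b, hb⟩ := R1 h hk hL0 hf hs
  exact pigeon' (ZL L) b (fun u => ∫ v, Tf f (gg (4 * k)) (v + u) * (KL L v : ℂ)) hb J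
    (R := Real.exp Y) (T := 1) (by positivity) hε hτ zero_le_one hJτ (fun u hu => by
      refine (R2 h hk hL hf hs hY hu).trans ?_
      gcongr) hc

end Pool.Agent.Helper96.EQ
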