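import Pool.Agent.Helper96.EQ.R
import Pool.Agent.Helper95.EQ.K

/-!
# Block R of project EQ, for the kernel of the levels
-/

set_option autoImplicit false

namespace Pool.Agent.Helper63.EQ

open MeasureTheory Set Filter Topology
open Pool.Agent.Helper95.EW (Ac Dl Nr)
open Pool.Agent.Helper71.MR (gt)
open Pool.Agent.Helper99.MS (ell ff mr GB gg KL ZL ell_nonneg ell_add)
open Pool.Agent.Helper95.EQ
open Pool.Agent.Helper96.EQ

variable {w : ℝ → ℝ} {Cw B : ℝ}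

theorem phi_out (w : ℝ → ℝ) {δ : ℝ} (hδ0 : 0 ≤ δ) (hδ : δ ≤ 1) {y : ℝ} (hy : 1 < |y|) :
    phi w δ y = 0 := by
  apply phi_supp w hδ0
  rcases lt_abs.1 hy with h | h
  · right; linarith
  · left; linarith

theorem phi_integrable (h : Adm w Cw) {δ : ℝ} (hδ0 : 0 ≤ δ) (hδ : δ ≤ 1) :
    Integrable (phi w δ) := by
  apply (phi_cont h δ).integrable_of_hasCompactSupport
  refine HasCompactSupport.intro (isCompact_Icc (a := (-1:ℝ)) (b := 1)) fun y hy => ?_
  apply phi_out w hδ0 hδ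
  by_contra hc
  exact hy (abs_le.1 (not_lt.1 hc))

theorem phi_abs (h : Adm w Cw) (δ : ℝ) :
    ∫ y : ℝ, |phi w δ y| = (∫ r : ℝ, kw w r) * ∫ u : ℝ, gt δ u := by
  rw [← phi_int h δ]
  exact integral_congr_ae (Filter.Eventually.of_forall fun y => abs_of_nonneg (phi_nonneg w δ y))

theorem Tc_eq (w : ℝ → ℝ) (δ : ℝ) (g : ℝ → ℂ) : Tc w δ g = Tf (phi w δ) g := rfl

/-- R1: the average of `gg` -/
theorem Tc_cont (h : Adm w Cw) {δ : ℝ} (hδ0 : 0 ≤ δ) (hδ : δ ≤ 1) {g : ℝ → ℂ} (hg : Continuous g) :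
    Continuous (Tc w δ g) := by
  have h1 : Tc w δ g = fun V => ∫ y in Icc (-1:ℝ) 1, (phi w δ y : ℂ) * g (V + y) := by
    funext V
    unfold Tc
    symm
    apply setIntegral_eq_integral_of_forall_compl_eq_zero
    intro y hy
    rw [phi_out w hδ0 hδ (by
      by_contra hc
      exact hy (abs_le.1 (not_lt.1 hc)))]
    simp
  rw [h1]
  apply continuous_parametric_integral_of_continuous _ isCompact_Icc
  have h2 := phi_cont h δ
  apply Continuous.mul
  · exact Complex.continuous_ofReal.comp (h2.comp continuous_snd)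
  · exact hg.comp (continuous_fst.add continuous_snd)

theorem Tc_bd (h : Adm w Cw) {δ : ℝ} (hδ0 : 0 ≤ δ) (hδ : δ ≤ 1) {g : ℝ → ℂ} (hg : Continuous g)
    {C₂ : ℝ} (hC₂ : 0 ≤ C₂) (hb : ∀ v, ‖g v‖ ≤ C₂ * ell v) (v : ℝ) :
    ‖Tc w δ g v‖ ≤ (2 * C₂ * ((∫ r : ℝ, kw w r) * ∫ u : ℝ, gt δ u)) * ell v := by
  have _ := hg
  have hv := ell_nonneg v
  unfold Tc
  calc ‖∫ y : ℝ, (phi w δ y : ℂ) * g (v + y)‖ ≤ ∫ y : ℝ, |phi w δ y| * (2 * C₂ * ell v) := by
        apply norm_integral_le_of_norm_le ((phi_integrable h hδ0 hδ).abs.mul_const _)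
        apply Filter.Eventually.of_forall
        intro y
        rw [norm_mul, Complex.norm_real, Real.norm_eq_abs]
        by_cases hy : 1 < |y|
        · rw [phi_out w hδ0 hδ hy]
          simp
        · apply mul_le_mul_of_nonneg_left _ (abs_nonneg _)
          refine (hb _).trans ?_
          have h1 : ell (v + y) ≤ ell v * 2 :=
            (ell_add v y).trans (mul_le_mul_of_nonneg_left (ell_one (not_lt.1 hy)) hv)
          calc C₂ * ell (v + y) ≤ C₂ * (ell v * 2) := mul_le_mul_of_nonneg_left h1 hC₂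
            _ = _ := by ring
    _ = _ := by
        rw [integral_mul_const, phi_abs h δ]
        ring

/-- R2: the Fejer smoothing of the average is again an exponential polynomial -/
theorem Tc_repr (h : Adm w Cw) {δ : ℝ} (hδ0 : 0 ≤ δ) (hδ : δ ≤ 1) {g : ℝ → ℂ} (hg : Continuous g)
    {C₂ : ℝ} (hC₂ : 0 ≤ C₂) (hb : ∀ v, ‖g v‖ ≤ C₂ * ell v) {L : ℝ} (hL : 0 < L) {Γ : Finset ℝ}
    {b : ℝ → ℂ}
    (hP : ∀ u : ℝ, ∫ v : ℝ, g (v + u) * (KL L v : ℂ) =
      ∑ γ ∈ Γ, b γ * Complex.exp (γ * u * Complex.I)) (v₀ : ℝ) :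
    ∃ b' : ℝ → ℂ, ∀ u : ℝ, ∫ v : ℝ, Tc w δ g (v + u + v₀) * (KL L v : ℂ) =
      ∑ γ ∈ Γ, b' γ * Complex.exp (γ * u * Complex.I) := by
  have hf := phi_integrable h hδ0 hδ
  refine ⟨fun γ => b γ * Complex.exp (γ * v₀ * Complex.I) *
    ∫ y, (phi w δ y : ℂ) * Complex.exp (γ * y * Complex.I), fun u => ?_⟩
  have h0 : ∀ v, Tc w δ g (v + u + v₀) * (KL L v : ℂ) =
      Tf (phi w δ) g (v + (u + v₀)) * (KL L v : ℂ) := fun v => by
    rw [Tc_eq, add_assoc]
  simp_rw [h0]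
  rw [Tf_swap hf (fun y hy => phi_out w hδ0 hδ hy) hg hb hC₂ hL (u + v₀)]
  have h1 : ∀ y : ℝ, (phi w δ y : ℂ) * ∫ v, g (v + (u + v₀ + y)) * (KL L v : ℂ) =
      ∑ γ ∈ Γ, (b γ * Complex.exp (γ * v₀ * Complex.I) * Complex.exp (γ * u * Complex.I)) *
        ((phi w δ y : ℂ) * Complex.exp (γ * y * Complex.I)) := by
    intro y
    rw [hP, Finset.mul_sum]
    apply Finset.sum_congr rfl
    intro γ _
    have e : (γ : ℂ) * ((u + v₀ + y : ℝ) : ℂ) * Complex.I =
        γ * v₀ * Complex.I + γ * u * Complex.I + γ * y * Complex.I := by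
      push_cast
      ring
    rw [e, Complex.exp_add, Complex.exp_add]
    ring
  simp_rw [h1]
  rw [integral_finsetSum _ fun γ _ => (exp_int hf γ).const_mul _]
  apply Finset.sum_congr rfl
  intro γ _
  rw [integral_const_mul]
  ring

end Pool.Agent.Helper63.EQ
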